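import Pool.Agent.HD5.Step

/-!
# HD5/Duality: the duality lemma

`P j` (with `d j : P (j+1) → P j`) and `Q j` (with `e j : Q j → Q (j+1)`) are complexes of modules,
dual to each other by pairings with values in `S ⧸ J` which have dual bases, and zero for large
`j`.  If `x₁, …, x_m` is a sequence such that all the ideals `J + (x₁^N₁, …, x_i^N_i)` have `x_{i+1}`
as a non-zero-divisor and all `S ⧸ (J + (x₁^N₁, …, x_m^N_m))` are finite-dimensional Frobenius
algebras, and the homologies are finite-dimensional and killed by powers of the `x_i`, then the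
homology of `P` at `P (j+1)` and the homology of `Q` at `Q (j+m+1)` have the same dimension.
-/

set_option autoImplicit false

namespace Pool.Agent.HD5

open scoped Pointwise

universe u v w

section

variable (k : Type u) [Field k] {S : Type w} [CommRing S] [Algebra k S]

/-- the condition on the sequence -/
def Good : List S → Ideal S → Prop
  | [], J => Module.Finite k (S ⧸ J) ∧
      ∃ φ : (S ⧸ J) →ₗ[k] k, ∀ r : S ⧸ J, (∀ a, φ (r * a) = 0) → r = 0
  | x :: xs, J => ∀ N : ℕ, 1 ≤ N →
      (∀ r : S, x ^ N * r ∈ J → r ∈ J) ∧ Good xs (J ⊔ Ideal.span {x ^ N})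

end

section

variable {S : Type w} [CommRing S]

/-- dual bases for a pairing with values in `S ⧸ J` -/
def DB (J : Ideal S) {P Q : Type v} [AddCommGroup P] [Module S P] [AddCommGroup Q] [Module S Q]
    (B : P →ₗ[S] Q →ₗ[S] (S ⧸ J)) : Prop :=
  ∃ (n : ℕ) (x : Fin n → P) (y : Fin n → Q),
    (∀ (p : P) (s : Fin n → S), (∀ i, Ideal.Quotient.mk J (s i) = B p (y i)) →
      p = ∑ i, s i • x i) ∧
    (∀ (q : Q) (s : Fin n → S), (∀ i, Ideal.Quotient.mk J (s i) = B (x i) q) →
      q = ∑ i, s i • y i)

variable {J : Ideal S} {P Q : Type v} [AddCommGroup P] [Module S P] [AddCommGroup Q] [Module S Q]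

theorem DB.inj {B : P →ₗ[S] Q →ₗ[S] (S ⧸ J)} (h : DB J B) (p : P) (hp : ∀ q, B p q = 0) :
    p = 0 := by
  obtain ⟨n, x, y, h1, h2⟩ := h
  rw [h1 p (fun _ => 0) (fun i => by rw [hp, map_zero])]
  simp

theorem DB.flip {B : P →ₗ[S] Q →ₗ[S] (S ⧸ J)} (h : DB J B) : DB J B.flip := by
  obtain ⟨n, x, y, h1, h2⟩ := h
  exact ⟨n, y, x, fun q s hs => h2 q s hs, fun p s hs => h1 p s hs⟩

theorem smul_quot (a : S) (r : S ⧸ J) : a • r = Ideal.Quotient.mk J a * r := by
  obtain ⟨r, rfl⟩ := Ideal.Quotient.mk_surjective r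
  rw [← map_mul]
  rfl

theorem DB.smul_inj {B : P →ₗ[S] Q →ₗ[S] (S ⧸ J)} (h : DB J B) {x : S}
    (hx : ∀ r : S, x * r ∈ J → r ∈ J) (p : P) (hp : x • p = 0) : p = 0 := by
  apply h.inj
  intro q
  obtain ⟨r, hr⟩ := Ideal.Quotient.mk_surjective (B p q)
  have h1 : x • B p q = 0 := by
    rw [← LinearMap.smul_apply, ← map_smul, hp]
    simp
  rw [← hr, smul_quot, ← map_mul, Ideal.Quotient.eq_zero_iff_mem] at h1
  rw [← hr, Ideal.Quotient.eq_zero_iff_mem]
  exact hx r h1

theorem DB.kill {B : P →ₗ[S] Q →ₗ[S] (S ⧸ J)} (h : DB J B) {a : S} (ha : a ∈ J) (p : P) :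
    a • p = 0 := by
  apply h.inj
  intro q
  rw [map_smul, LinearMap.smul_apply, smul_quot, Ideal.Quotient.eq_zero_iff_mem.2 ha, zero_mul]

/-- the quotient map -/
def fac (J : Ideal S) (x : S) : (S ⧸ J) →ₗ[S] (S ⧸ (J ⊔ Ideal.span {x})) :=
  Submodule.factor (le_sup_left : J ≤ J ⊔ Ideal.span {x})

theorem fac_mk (J : Ideal S) (x r : S) :
    fac J x (Ideal.Quotient.mk J r) = Ideal.Quotient.mk (J ⊔ Ideal.span {x}) r := rfl

theorem fac_smul (J : Ideal S) (x : S) (r : S ⧸ J) : fac J x (x • r) = 0 := by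
  obtain ⟨r, rfl⟩ := Ideal.Quotient.mk_surjective r
  rw [smul_quot, ← map_mul, fac_mk, Ideal.Quotient.eq_zero_iff_mem]
  exact Ideal.mul_mem_right _ _ (Ideal.mem_sup_right (Ideal.mem_span_singleton_self x))

/-- the pairing modulo `x` in the second variable -/
def quotB1 (x : S) (B : P →ₗ[S] Q →ₗ[S] (S ⧸ J)) (p : P) :
    QuotSMulTop x Q →ₗ[S] (S ⧸ (J ⊔ Ideal.span {x})) :=
  Submodule.liftQ _ (fac J x ∘ₗ B p) (by
    intro z hz
    rw [Submodule.mem_smul_pointwise_iff_exists] at hz
    obtain ⟨w, _, rfl⟩ := hz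
    rw [LinearMap.mem_ker, LinearMap.comp_apply, map_smul, fac_smul])

/-- the pairing modulo `x` -/
def quotB (x : S) (B : P →ₗ[S] Q →ₗ[S] (S ⧸ J)) :
    QuotSMulTop x P →ₗ[S] QuotSMulTop x Q →ₗ[S] (S ⧸ (J ⊔ Ideal.span {x})) :=
  Submodule.liftQ _
    ({ toFun := fun p => quotB1 x B p
       map_add' := by
         intro p p'
         ext q
         change fac J x (B (p + p') q) = fac J x (B p q) + fac J x (B p' q)
         rw [map_add, LinearMap.add_apply, map_add]
       map_smul' := by
         intro a p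
         ext q
         change fac J x (B (a • p) q) = a • fac J x (B p q)
         rw [map_smul, LinearMap.smul_apply, map_smul] } :
      P →ₗ[S] (QuotSMulTop x Q →ₗ[S] (S ⧸ (J ⊔ Ideal.span {x})))) (by
    intro z hz
    rw [Submodule.mem_smul_pointwise_iff_exists] at hz
    obtain ⟨w, _, rfl⟩ := hz
    rw [LinearMap.mem_ker]
    ext q
    change fac J x (B (x • w) q) = 0
    rw [map_smul, LinearMap.smul_apply, fac_smul])

theorem quotB_mk (x : S) (B : P →ₗ[S] Q →ₗ[S] (S ⧸ J)) (p : P) (q : Q) :
    quotB x B (Submodule.Quotient.mk p) (Submodule.Quotient.mk q) = fac J x (B p q) := rfl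

theorem DB.quot_half {B : P →ₗ[S] Q →ₗ[S] (S ⧸ J)} (x : S) {n : ℕ} {X : Fin n → P}
    {Y : Fin n → Q}
    (h1 : ∀ (p : P) (s : Fin n → S), (∀ i, Ideal.Quotient.mk J (s i) = B p (Y i)) →
      p = ∑ i, s i • X i) (hk : ∀ a ∈ J, ∀ p : P, a • p = 0)
    (p : QuotSMulTop x P) (s : Fin n → S)
    (hs : ∀ i, Ideal.Quotient.mk (J ⊔ Ideal.span {x}) (s i)
      = quotB x B p (Submodule.Quotient.mk (Y i))) :
    p = ∑ i, s i • (Submodule.Quotient.mk (X i) : QuotSMulTop x P) := by
  obtain ⟨p, rfl⟩ := Submodule.Quotient.mk_surjective _ p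
  have hb : ∀ i, ∃ b : S, Ideal.Quotient.mk J b = B p (Y i) := fun i =>
    Ideal.Quotient.mk_surjective _
  choose b hb using hb
  have h3 : ∀ i, ∃ j r, j ∈ J ∧ s i = b i + (j + x * r) := by
    intro i
    have h4 := hs i
    rw [quotB_mk, ← hb i, fac_mk, ← sub_eq_zero, ← map_sub, Ideal.Quotient.eq_zero_iff_mem,
      Submodule.mem_sup] at h4
    obtain ⟨j, hj, z, hz, h5⟩ := h4
    rw [Ideal.mem_span_singleton'] at hz
    obtain ⟨r, rfl⟩ := hz
    exact ⟨j, r, hj, by rw [mul_comm x r, h5]; ring⟩
  choose j r hj hs' using h3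
  have hp := h1 p b hb
  have : (∑ i, s i • (Submodule.Quotient.mk (X i) : QuotSMulTop x P))
      = Submodule.Quotient.mk (∑ i, s i • X i) := by
    change _ = (Submodule.mkQ _) (∑ i, s i • X i)
    rw [map_sum]
    rfl
  rw [this, ← sub_eq_zero, ← Submodule.Quotient.mk_sub, qmk_eq_zero]
  refine ⟨-∑ i, r i • X i, ?_⟩
  have h6 : ∑ i, s i • X i = p + x • ∑ i, r i • X i := by
    conv_rhs => rw [hp]
    rw [Finset.smul_sum, ← Finset.sum_add_distrib]
    refine Finset.sum_congr rfl fun i _ => ?_
    rw [hs' i, add_smul, add_smul, hk _ (hj i), zero_add, smul_smul]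
  rw [h6, smul_neg]
  abel

theorem DB.quot {B : P →ₗ[S] Q →ₗ[S] (S ⧸ J)} (h : DB J B) (x : S) :
    DB (J ⊔ Ideal.span {x}) (quotB x B) := by
  have hk1 : ∀ a ∈ J, ∀ p : P, a • p = 0 := fun a ha p => h.kill ha p
  have hk2 : ∀ a ∈ J, ∀ q : Q, a • q = 0 := fun a ha q => h.flip.kill ha q
  obtain ⟨n, X, Y, h1, h2⟩ := h
  refine ⟨n, fun i => Submodule.Quotient.mk (X i), fun i => Submodule.Quotient.mk (Y i), ?_, ?_⟩
  · intro p s hs
    exact DB.quot_half x h1 hk1 p s hs
  · intro q s hs
    refine DB.quot_half (B := B.flip) x h2 hk2 q s ?_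
    intro i
    rw [hs i]
    obtain ⟨q, rfl⟩ := Submodule.Quotient.mk_surjective _ q
    rfl

end

section Base

variable {k : Type u} [Field k]

theorem finrank_map_inj {V W : Type*} [AddCommGroup V] [Module k V] [AddCommGroup W] [Module k W]
    {f : V →ₗ[k] W} (hf : Function.Injective f) (p : Submodule k V) :
    Module.finrank k (p.map f) = Module.finrank k p :=
  (Submodule.equivMapOfInjective f hf p).finrank_eq.symm

theorem rank_eq {V W V' W' : Type v} [AddCommGroup V] [Module k V] [AddCommGroup W] [Module k W]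
    [AddCommGroup V'] [Module k V'] [AddCommGroup W'] [Module k W'] [Module.Finite k V]
    [Module.Finite k W] [Module.Finite k V'] [Module.Finite k W']
    (bV : V →ₗ[k] V' →ₗ[k] k) (bW : W →ₗ[k] W' →ₗ[k] k)
    (hV1 : ∀ p, (∀ q, bV p q = 0) → p = 0) (hV2 : ∀ q, (∀ p, bV p q = 0) → q = 0)
    (hW1 : ∀ p, (∀ q, bW p q = 0) → p = 0) (hW2 : ∀ q, (∀ p, bW p q = 0) → q = 0)
    (d : V →ₗ[k] W) (e : W' →ₗ[k] V') (hadj : ∀ p q, bW (d p) q = bV p (e q)) :
    Module.finrank k (LinearMap.range d) = Module.finrank k (LinearMap.range e) ∧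
    Module.finrank k V = Module.finrank k V' := by
  have dims : ∀ {V V' : Type v} [AddCommGroup V] [Module k V] [AddCommGroup V'] [Module k V']
      [Module.Finite k V] [Module.Finite k V'] (b : V →ₗ[k] V' →ₗ[k] k)
      (h1 : ∀ p, (∀ q, b p q = 0) → p = 0) (h2 : ∀ q, (∀ p, b p q = 0) → q = 0),
      Module.finrank k V = Module.finrank k V' := by
    intro V V' _ _ _ _ _ _ b h1 h2
    have i1 : Function.Injective b := by
      rw [injective_iff_map_eq_zero]
      intro p hp
      exact h1 p fun q => by rw [hp]; rfl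
    have i2 : Function.Injective b.flip := by
      rw [injective_iff_map_eq_zero]
      intro q hq
      refine h2 q fun p => ?_
      have := congrArg (fun f => f p) hq
      simpa using this
    have l1 := LinearMap.finrank_le_finrank_of_injective i1
    have l2 := LinearMap.finrank_le_finrank_of_injective i2
    rw [Subspace.dual_finrank_eq] at l1 l2
    omega
  refine ⟨?_, dims bV hV1 hV2⟩
  have i1 : Function.Injective bV.flip := by
    rw [injective_iff_map_eq_zero]
    intro q hq
    refine hV2 q fun p => ?_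
    have := congrArg (fun f => f p) hq
    simpa using this
  have i2 : Function.Injective bW.flip := by
    rw [injective_iff_map_eq_zero]
    intro q hq
    refine hW2 q fun p => ?_
    have := congrArg (fun f => f p) hq
    simpa using this
  have s2 : Function.Surjective bW.flip := by
    have hd : Module.finrank k W' = Module.finrank k (Module.Dual k W) := by
      rw [Subspace.dual_finrank_eq, dims bW hW1 hW2]
    exact (LinearMap.injective_iff_surjective_of_finrank_eq_finrank hd).1 i2
  have hcomm : bV.flip ∘ₗ e = d.dualMap ∘ₗ bW.flip := by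
    ext q p
    exact (hadj p q).symm
  have r1 : Module.finrank k (LinearMap.range (bV.flip ∘ₗ e))
      = Module.finrank k (LinearMap.range e) := by
    rw [LinearMap.range_comp]
    exact finrank_map_inj i1 _
  have r2 : LinearMap.range (d.dualMap ∘ₗ bW.flip) = LinearMap.range d.dualMap := by
    rw [LinearMap.range_comp, LinearMap.range_eq_top.2 s2, Submodule.map_top]
  rw [← r1, hcomm, r2, LinearMap.finrank_range_dualMap_eq_finrank_range]

variable {S : Type w} [CommRing S] [Algebra k S]
variable {A B C : Type v} [AddCommGroup A] [Module S A] [AddCommGroup B] [Module S B]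
  [AddCommGroup C] [Module S C]
  [Module k A] [IsScalarTower k S A] [Module k B] [IsScalarTower k S B] [Module k C]
  [IsScalarTower k S C]

theorem hm_dim [Module.Finite k B] (f : A →ₗ[S] B) (g : B →ₗ[S] C) (hfg : ∀ a, g (f a) = 0) :
    Module.finrank k (Hm f g) + Module.finrank k (LinearMap.range (f.restrictScalars k))
      + Module.finrank k (LinearMap.range (g.restrictScalars k)) = Module.finrank k B := by
  have h1 := LinearMap.finrank_range_add_finrank_ker (g.restrictScalars k)
  have hfk : Module.Finite k ↥(LinearMap.ker g) := by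
    change Module.Finite k ↥(LinearMap.ker (g.restrictScalars k))
    infer_instance
  set π : ↥(LinearMap.ker g) →ₗ[k] Hm f g :=
    ((Submodule.mkQ ((LinearMap.range f).submoduleOf (LinearMap.ker g))).restrictScalars k) with hπ
  have h2 := LinearMap.finrank_range_add_finrank_ker π
  have h3 : LinearMap.range π = ⊤ := by
    rw [LinearMap.range_eq_top]
    exact Submodule.mkQ_surjective _
  rw [h3, finrank_top] at h2
  have h4 : Module.finrank k (LinearMap.ker π)
      = Module.finrank k (LinearMap.range (f.restrictScalars k)) := by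
    have hmap : (LinearMap.ker π).map ((LinearMap.ker g).subtype.restrictScalars k)
        = LinearMap.range (f.restrictScalars k) := by
      ext z
      rw [Submodule.mem_map, LinearMap.mem_range]
      constructor
      · rintro ⟨y, hy, rfl⟩
        have : (Submodule.Quotient.mk y : Hm f g) = 0 := hy
        rw [hm_mk_eq_zero] at this
        exact this
      · rintro ⟨a, rfl⟩
        refine ⟨⟨f a, hfg a⟩, ?_, rfl⟩
        change (Submodule.Quotient.mk _ : Hm f g) = 0
        rw [hm_mk_eq_zero]
        exact ⟨a, rfl⟩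
    rw [← hmap]
    exact (finrank_map_inj (f := (LinearMap.ker g).subtype.restrictScalars k)
      (Subtype.val_injective) _).symm
  have h5 : Module.finrank k (LinearMap.ker (g.restrictScalars k))
      = Module.finrank k ↥(LinearMap.ker g) := rfl
  omega

end Base

section Main

variable {k : Type u} [Field k] {S : Type w} [CommRing S] [Algebra k S]

theorem base_nondeg {J : Ideal S} {P Q : Type v} [AddCommGroup P] [Module S P] [AddCommGroup Q]
    [Module S Q] {B : P →ₗ[S] Q →ₗ[S] (S ⧸ J)} (h : DB J B) {φ : (S ⧸ J) →ₗ[k] k}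
    (hφ : ∀ r : S ⧸ J, (∀ a, φ (r * a) = 0) → r = 0) (p : P) (hp : ∀ q, φ (B p q) = 0) : p = 0 := by
  apply h.inj
  intro q
  apply hφ
  intro a
  obtain ⟨a, rfl⟩ := Ideal.Quotient.mk_surjective a
  have := hp (a • q)
  rw [map_smul, smul_quot, mul_comm] at this
  exact this

theorem base_fin {J : Ideal S} {P Q : Type v} [AddCommGroup P] [Module S P] [AddCommGroup Q]
    [Module S Q] [Module k P] [IsScalarTower k S P] {B : P →ₗ[S] Q →ₗ[S] (S ⧸ J)} (h : DB J B)
    [Module.Finite k (S ⧸ J)] : Module.Finite k P := by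
  obtain ⟨n, x, y, h1, h2⟩ := h
  let F : P →ₗ[k] (Fin n → S ⧸ J) :=
    LinearMap.pi fun i => ((B.flip (y i)).restrictScalars k)
  have hF : Function.Injective F := by
    rw [injective_iff_map_eq_zero]
    intro p hp
    rw [h1 p (fun _ => 0) (fun i => by
      rw [map_zero]
      exact (congrFun hp i).symm)]
    simp
  exact Module.Finite.of_injective F hF

theorem dual_main (xs : List S) : ∀ (J : Ideal S) (_hJ : Good k xs J)
    (P Q : ℕ → Type v) [∀ j, AddCommGroup (P j)] [∀ j, Module S (P j)] [∀ j, Module k (P j)]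
    [∀ j, IsScalarTower k S (P j)] [∀ j, AddCommGroup (Q j)] [∀ j, Module S (Q j)]
    [∀ j, Module k (Q j)] [∀ j, IsScalarTower k S (Q j)]
    (d : ∀ j, P (j + 1) →ₗ[S] P j) (e : ∀ j, Q j →ₗ[S] Q (j + 1))
    (B : ∀ j, P j →ₗ[S] Q j →ₗ[S] (S ⧸ J)) (_hB : ∀ j, DB J (B j))
    (_hadj : ∀ j (p : P (j + 1)) (q : Q j), B j (d j p) q = B (j + 1) p (e j q))
    (_hdd : ∀ j z, d j (d (j + 1) z) = 0) (_hee : ∀ j z, e (j + 1) (e j z) = 0)
    (_hP0 : Subsingleton (P 0)) (_hbd : ∃ n, ∀ j, n ≤ j → Subsingleton (P j) ∧ Subsingleton (Q j))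
    (_hkP : ∀ x ∈ xs, ∃ M : ℕ, ∀ j (z : P (j + 1)), d j z = 0 → ∃ y, d (j + 1) y = x ^ M • z)
    (_hkQ : ∀ x ∈ xs, ∃ M : ℕ, ∀ j (z : Q (j + 1)), e (j + 1) z = 0 → ∃ y, e j y = x ^ M • z)
    (_hfP : ∀ j, Module.Finite k (Hm (d (j + 1)) (d j)))
    (_hfQ : ∀ j, Module.Finite k (Hm (e j) (e (j + 1)))) (j : ℕ),
    Module.finrank k (Hm (d (j + 1)) (d j))
      = (fun i => Module.finrank k (Hm (e i) (e (i + 1)))) (j + xs.length) := by
  induction xs with
  | nil =>
    intro J hJ P Q _ _ _ _ _ _ _ _ d e B hB hadj hdd hee hP0 hbd hkP hkQ hfP hfQ j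
    obtain ⟨hfin, φ, hφ⟩ := hJ
    have fP : ∀ j, Module.Finite k (P j) := fun j => base_fin (hB j)
    have fQ : ∀ j, Module.Finite k (Q j) := fun j => base_fin (hB j).flip
    let b : ∀ j, P j →ₗ[k] Q j →ₗ[k] k := fun j =>
      LinearMap.mk₂ k (fun p q => φ (B j p q))
        (fun p p' q => by rw [map_add, LinearMap.add_apply, map_add])
        (fun c p q => by
          rw [← algebraMap_smul S c p, map_smul, LinearMap.smul_apply, algebraMap_smul, map_smul])
        (fun p q q' => by rw [map_add, map_add])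
        (fun c p q => by rw [← algebraMap_smul S c q, map_smul, algebraMap_smul, map_smul])
    have key := fun j => rank_eq (b (j + 1)) (b j)
      (fun p hp => base_nondeg (hB (j + 1)) hφ p hp)
      (fun q hq => base_nondeg (hB (j + 1)).flip hφ q hq)
      (fun p hp => base_nondeg (hB j) hφ p hp)
      (fun q hq => base_nondeg (hB j).flip hφ q hq)
      ((d j).restrictScalars k) ((e j).restrictScalars k)
      (fun p q => congrArg φ (hadj j p q))
    have h1 := hm_dim (k := k) (d (j + 1)) (d j) (hdd j)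
    have h2 := hm_dim (k := k) (e j) (e (j + 1)) (hee j)
    have h3 := key j
    have h4 := key (j + 1)
    change _ = Module.finrank k (Hm (e j) (e (j + 1)))
    omega
  | cons x xs ih =>
    intro J hJ P Q _ _ _ _ _ _ _ _ d e B hB hadj hdd hee hP0 hbd hkP hkQ hfP hfQ j
    obtain ⟨M1, hM1⟩ := hkP x (by simp)
    obtain ⟨M2, hM2⟩ := hkQ x (by simp)
    obtain ⟨hnz, hG⟩ := hJ (M1 + M2 + 1) (by omega)
    have kP : ∀ j (z : P (j + 1)), d j z = 0 → ∃ y, d (j + 1) y = x ^ (M1 + M2 + 1) • z := by
      intro j z hz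
      obtain ⟨y, hy⟩ := hM1 j z hz
      refine ⟨x ^ (M2 + 1) • y, ?_⟩
      rw [map_smul, hy, smul_smul, ← pow_add]
      congr 2
      omega
    have kQ : ∀ j (z : Q (j + 1)), e (j + 1) z = 0 → ∃ y, e j y = x ^ (M1 + M2 + 1) • z := by
      intro j z hz
      obtain ⟨y, hy⟩ := hM2 j z hz
      refine ⟨x ^ (M1 + 1) • y, ?_⟩
      rw [map_smul, hy, smul_smul, ← pow_add]
      congr 2
      omega
    generalize x ^ (M1 + M2 + 1) = X at hnz hG kP kQ
    have iP : ∀ j (p : P j), X • p = 0 → p = 0 := fun j p hp => (hB j).smul_inj hnz p hp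
    have iQ : ∀ j (q : Q j), X • q = 0 → q = 0 := fun j q hq => (hB j).flip.smul_inj hnz q hq
    -- the one-step lemma
    have sP : ∀ j, Module.Finite k (Hm (QuotSMulTop.map X (d (j + 2))) (QuotSMulTop.map X (d (j + 1)))) ∧
        Module.finrank k (Hm (QuotSMulTop.map X (d (j + 2))) (QuotSMulTop.map X (d (j + 1))))
          = Module.finrank k (Hm (d (j + 2)) (d (j + 1))) + Module.finrank k (Hm (d (j + 1)) (d j)) := by
      intro j
      have := hfP j
      have := hfP (j + 1)
      exact step k X (d (j + 2)) (d (j + 1)) (d j) (hdd (j + 1)) (hdd j) (iP _) (iP _)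
        (kP (j + 1)) (kP j)
    have sP0 : Module.Finite k (Hm (QuotSMulTop.map X (d 1)) (QuotSMulTop.map X (d 0))) := by
      have := hfP 0
      have h0 : Module.Finite k (Hm (d 0) (0 : P 0 →ₗ[S] P 0)) := by
        have : Subsingleton (Hm (d 0) (0 : P 0 →ₗ[S] P 0)) := by
          refine ⟨fun a b => ?_⟩
          obtain ⟨a, rfl⟩ := Submodule.Quotient.mk_surjective _ a
          obtain ⟨b, rfl⟩ := Submodule.Quotient.mk_surjective _ b
          have : a = b := Subtype.ext (Subsingleton.elim _ _)
          rw [this]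
        infer_instance
      exact (step k X (d 1) (d 0) (0 : P 0 →ₗ[S] P 0) (hdd 0) (fun b => rfl) (iP _) (iP _)
        (kP 0) (fun c _ => ⟨0, Subsingleton.elim _ _⟩)).1
    have sQ : ∀ j, Module.Finite k (Hm (QuotSMulTop.map X (e j)) (QuotSMulTop.map X (e (j + 1)))) ∧
        Module.finrank k (Hm (QuotSMulTop.map X (e j)) (QuotSMulTop.map X (e (j + 1))))
          = Module.finrank k (Hm (e j) (e (j + 1)))
            + Module.finrank k (Hm (e (j + 1)) (e (j + 2))) := by
      intro j
      have := hfQ j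
      have := hfQ (j + 1)
      exact step k X (e j) (e (j + 1)) (e (j + 2)) (hee j) (hee (j + 1)) (iQ _) (iQ _)
        (kQ j) (kQ (j + 1))
    have IH := ih (J ⊔ Ideal.span {X}) hG (fun j => QuotSMulTop X (P j))
      (fun j => QuotSMulTop X (Q j)) (fun j => QuotSMulTop.map X (d j))
      (fun j => QuotSMulTop.map X (e j)) (fun j => quotB X (B j)) (fun j => (hB j).quot X)
      (by
        intro j p q
        obtain ⟨p, rfl⟩ := Submodule.Quotient.mk_surjective _ p
        obtain ⟨q, rfl⟩ := Submodule.Quotient.mk_surjective _ q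
        rw [qmap_mk, qmap_mk, quotB_mk, quotB_mk, hadj])
      (by
        intro j z
        obtain ⟨z, rfl⟩ := Submodule.Quotient.mk_surjective _ z
        rw [qmap_mk, qmap_mk, hdd, Submodule.Quotient.mk_zero])
      (by
        intro j z
        obtain ⟨z, rfl⟩ := Submodule.Quotient.mk_surjective _ z
        rw [qmap_mk, qmap_mk, hee, Submodule.Quotient.mk_zero])
      (by
        refine ⟨fun a b => ?_⟩
        obtain ⟨a, rfl⟩ := Submodule.Quotient.mk_surjective _ a
        obtain ⟨b, rfl⟩ := Submodule.Quotient.mk_surjective _ b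
        rw [Subsingleton.elim a b])
      (by
        obtain ⟨n, hn⟩ := hbd
        refine ⟨n, fun j hj => ⟨⟨fun a b => ?_⟩, ⟨fun a b => ?_⟩⟩⟩
        · obtain ⟨a, rfl⟩ := Submodule.Quotient.mk_surjective _ a
          obtain ⟨b, rfl⟩ := Submodule.Quotient.mk_surjective _ b
          have := (hn j hj).1
          rw [Subsingleton.elim a b]
        · obtain ⟨a, rfl⟩ := Submodule.Quotient.mk_surjective _ a
          obtain ⟨b, rfl⟩ := Submodule.Quotient.mk_surjective _ b
          have := (hn j hj).2
          rw [Subsingleton.elim a b])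
      (by
        intro y hy
        obtain ⟨M, hM⟩ := hkP y (by simp [hy])
        refine ⟨M + M, fun j z hz => ?_⟩
        rw [pow_add]
        cases j with
        | zero =>
          exact step_kill X (y ^ M) (y ^ M) (d 1) (d 0) (0 : P 0 →ₗ[S] P 0) (fun b => rfl) (iP _)
            (hM 0) (fun c _ => ⟨0, Subsingleton.elim _ _⟩) z hz
        | succ j =>
          exact step_kill X (y ^ M) (y ^ M) (d (j + 2)) (d (j + 1)) (d j) (hdd j) (iP _)
            (hM (j + 1)) (hM j) z hz)
      (by
        intro y hy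
        obtain ⟨M, hM⟩ := hkQ y (by simp [hy])
        refine ⟨M + M, fun j z hz => ?_⟩
        rw [pow_add]
        exact step_kill X (y ^ M) (y ^ M) (e j) (e (j + 1)) (e (j + 2)) (hee (j + 1)) (iQ _)
          (hM j) (hM (j + 1)) z hz)
      (by
        intro j
        cases j with
        | zero => exact sP0
        | succ j => exact (sP j).1)
      (fun j => (sQ j).1)
    -- the downward induction
    obtain ⟨n, hn⟩ := hbd
    set p : ℕ → ℕ := fun j => Module.finrank k (Hm (d (j + 1)) (d j)) with hp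
    set q : ℕ → ℕ := fun j => Module.finrank k (Hm (e j) (e (j + 1))) with hq
    have rel : ∀ i, p (i + 1) + p i = q (i + 1 + xs.length) + q (i + 1 + xs.length + 1) := by
      intro i
      have h1 := IH (i + 1)
      have h2 := (sP i).2
      have h3 := (sQ (i + 1 + xs.length)).2
      simp only [hp, hq]
      rw [← h2, ← h3]
      exact h1
    have z1 : ∀ j, n ≤ j → p j = 0 := by
      intro j hj
      have := (hn (j + 1) (by omega)).1
      have hs : Subsingleton (Hm (d (j + 1)) (d j)) := by
        refine ⟨fun a b => ?_⟩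
        obtain ⟨a, rfl⟩ := Submodule.Quotient.mk_surjective _ a
        obtain ⟨b, rfl⟩ := Submodule.Quotient.mk_surjective _ b
        have : a = b := Subtype.ext (Subsingleton.elim _ _)
        rw [this]
      exact Module.finrank_zero_of_subsingleton
    have z2 : ∀ j, n ≤ j → q j = 0 := by
      intro j hj
      have := (hn (j + 1) (by omega)).2
      have hs : Subsingleton (Hm (e j) (e (j + 1))) := by
        refine ⟨fun a b => ?_⟩
        obtain ⟨a, rfl⟩ := Submodule.Quotient.mk_surjective _ a
        obtain ⟨b, rfl⟩ := Submodule.Quotient.mk_surjective _ b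
        have : a = b := Subtype.ext (Subsingleton.elim _ _)
        rw [this]
      exact Module.finrank_zero_of_subsingleton
    have down : ∀ t i, n ≤ i + t → p i = q (i + xs.length + 1) := by
      intro t
      induction t with
      | zero =>
        intro i hi
        rw [z1 i (by omega), z2 _ (by omega)]
      | succ t iht =>
        intro i hi
        have h1 := iht (i + 1) (by omega)
        have h2 := rel i
        have e1 : i + 1 + xs.length = i + xs.length + 1 := by omega
        rw [e1] at h1 h2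
        omega
    exact down n j (by omega)

end Main

end Pool.Agent.HD5
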