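import Mathlib

/-!
# HD5/Step: homology of a complex modulo a non-zero-divisor which kills the homology
-/

set_option autoImplicit false

namespace Pool.Agent.HD5

open scoped Pointwise

universe u v w

section

variable {S : Type w} [CommRing S]
variable {A B C D : Type v} [AddCommGroup A] [Module S A] [AddCommGroup B] [Module S B]
  [AddCommGroup C] [Module S C] [AddCommGroup D] [Module S D]

/-- the homology `ker g / im f` -/
abbrev Hm (f : A →ₗ[S] B) (g : B →ₗ[S] C) : Type v :=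
  ↥(LinearMap.ker g) ⧸ (LinearMap.range f).submoduleOf (LinearMap.ker g)

theorem mem_subOf {N K : Submodule S B} (z : ↥K) : z ∈ N.submoduleOf K ↔ (z : B) ∈ N := Iff.rfl

theorem hm_mk_eq_zero (f : A →ₗ[S] B) (g : B →ₗ[S] C) (z : ↥(LinearMap.ker g)) :
    (Submodule.Quotient.mk z : Hm f g) = 0 ↔ ∃ a, f a = z := by
  rw [Submodule.Quotient.mk_eq_zero, mem_subOf, LinearMap.mem_range]

theorem qmk_eq_zero {M : Type v} [AddCommGroup M] [Module S M] (x : S) (z : M) :
    (Submodule.Quotient.mk z : QuotSMulTop x M) = 0 ↔ ∃ w : M, x • w = z := by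
  rw [Submodule.Quotient.mk_eq_zero, Submodule.mem_smul_pointwise_iff_exists]
  constructor
  · rintro ⟨w, _, hw⟩; exact ⟨w, hw⟩
  · rintro ⟨w, hw⟩; exact ⟨w, Submodule.mem_top, hw⟩

theorem qmap_mk {M N : Type v} [AddCommGroup M] [Module S M] [AddCommGroup N] [Module S N]
    (x : S) (f : M →ₗ[S] N) (z : M) :
    QuotSMulTop.map x f (Submodule.Quotient.mk z) = Submodule.Quotient.mk (f z) := rfl

/-- the pairs `(b, c)` with `g b = x c` -/
def TT (x : S) (g : B →ₗ[S] C) : Submodule S (B × C) :=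
  LinearMap.ker (g ∘ₗ LinearMap.fst S B C - x • LinearMap.snd S B C)

theorem mem_TT {x : S} {g : B →ₗ[S] C} {p : B × C} : p ∈ TT x g ↔ g p.1 = x • p.2 := by
  rw [TT, LinearMap.mem_ker, LinearMap.sub_apply, sub_eq_zero]
  rfl

/-- the projection of `TT` to the homology modulo `x` -/
def piT (x : S) (f : A →ₗ[S] B) (g : B →ₗ[S] C) :
    ↥(TT x g) →ₗ[S] Hm (QuotSMulTop.map x f) (QuotSMulTop.map x g) :=
  (Submodule.mkQ _) ∘ₗ
    (LinearMap.codRestrict (LinearMap.ker (QuotSMulTop.map x g))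
      ((Submodule.mkQ (x • (⊤ : Submodule S B))) ∘ₗ (LinearMap.fst S B C) ∘ₗ (TT x g).subtype)
      (fun p => by
        rw [LinearMap.mem_ker]
        change QuotSMulTop.map x g (Submodule.Quotient.mk (p : B × C).1) = 0
        rw [qmap_mk, qmk_eq_zero]
        exact ⟨_, (mem_TT.1 p.2).symm⟩))

/-- the projection of `TT` to the homology at `C` -/
def rhoT (x : S) (g : B →ₗ[S] C) (h : C →ₗ[S] D) (hgh : ∀ b, h (g b) = 0)
    (hD : ∀ z : D, x • z = 0 → z = 0) : ↥(TT x g) →ₗ[S] Hm g h :=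
  (Submodule.mkQ _) ∘ₗ
    (LinearMap.codRestrict (LinearMap.ker h) ((LinearMap.snd S B C) ∘ₗ (TT x g).subtype)
      (fun p => by
        rw [LinearMap.mem_ker]
        apply hD
        change x • h (p : B × C).2 = 0
        rw [← map_smul, ← mem_TT.1 p.2, hgh]))

theorem piT_surj (x : S) (f : A →ₗ[S] B) (g : B →ₗ[S] C) :
    Function.Surjective (piT x f g) := by
  intro z
  obtain ⟨⟨z, hz⟩, rfl⟩ := Submodule.Quotient.mk_surjective _ z
  obtain ⟨b, rfl⟩ := Submodule.Quotient.mk_surjective _ z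
  rw [LinearMap.mem_ker, qmap_mk, qmk_eq_zero] at hz
  obtain ⟨c, hc⟩ := hz
  exact ⟨⟨(b, c), mem_TT.2 hc.symm⟩, rfl⟩

theorem piT_eq_zero (x : S) (f : A →ₗ[S] B) (g : B →ₗ[S] C) (p : ↥(TT x g)) :
    piT x f g p = 0 ↔ ∃ a b', (p : B × C).1 = f a + x • b' := by
  change (Submodule.Quotient.mk _ : Hm _ _) = 0 ↔ _
  rw [hm_mk_eq_zero]
  constructor
  · rintro ⟨a, ha⟩
    obtain ⟨a, rfl⟩ := Submodule.Quotient.mk_surjective _ a
    have h1 : (Submodule.Quotient.mk (f a) : QuotSMulTop x B)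
      = Submodule.Quotient.mk (p : B × C).1 := ha
    rw [← sub_eq_zero, ← Submodule.Quotient.mk_sub, qmk_eq_zero] at h1
    obtain ⟨w, hw⟩ := h1
    refine ⟨a, -w, ?_⟩
    rw [smul_neg, hw]
    abel
  · rintro ⟨a, b', h⟩
    refine ⟨Submodule.Quotient.mk a, ?_⟩
    change (Submodule.Quotient.mk (f a) : QuotSMulTop x B) = Submodule.Quotient.mk (p : B × C).1
    rw [← sub_eq_zero, ← Submodule.Quotient.mk_sub, qmk_eq_zero]
    refine ⟨-b', ?_⟩
    rw [h, smul_neg]
    abel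

theorem rhoT_surj (x : S) (g : B →ₗ[S] C) (h : C →ₗ[S] D) (hgh : ∀ b, h (g b) = 0)
    (hD : ∀ z : D, x • z = 0 → z = 0) (kC : ∀ c, h c = 0 → ∃ b, g b = x • c) :
    Function.Surjective (rhoT x g h hgh hD) := by
  intro z
  obtain ⟨⟨c, hc⟩, rfl⟩ := Submodule.Quotient.mk_surjective _ z
  obtain ⟨b, hb⟩ := kC c hc
  exact ⟨⟨(b, c), mem_TT.2 hb⟩, rfl⟩

theorem rhoT_eq_zero (x : S) (g : B →ₗ[S] C) (h : C →ₗ[S] D) (hgh : ∀ b, h (g b) = 0)
    (hD : ∀ z : D, x • z = 0 → z = 0) (p : ↥(TT x g)) :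
    rhoT x g h hgh hD p = 0 ↔ ∃ b, g b = (p : B × C).2 := by
  change (Submodule.Quotient.mk _ : Hm _ _) = 0 ↔ _
  rw [hm_mk_eq_zero]
  rfl

/-- the inclusion of the homology at `B` -/
def sigT (x : S) (f : A →ₗ[S] B) (g : B →ₗ[S] C) :
    Hm f g →ₗ[S] Hm (QuotSMulTop.map x f) (QuotSMulTop.map x g) :=
  Submodule.liftQ _ ((piT x f g) ∘ₗ
    (LinearMap.codRestrict (TT x g) ((LinearMap.inl S B C) ∘ₗ (LinearMap.ker g).subtype)
      (fun b => by
        rw [mem_TT]
        have : g (b : B) = 0 := b.2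
        simp [this]))) (by
    intro z hz
    rw [mem_subOf, LinearMap.mem_range] at hz
    obtain ⟨a, ha⟩ := hz
    rw [LinearMap.mem_ker, LinearMap.comp_apply, piT_eq_zero]
    exact ⟨a, 0, by simp [ha]⟩)

theorem sigT_mk (x : S) (f : A →ₗ[S] B) (g : B →ₗ[S] C) (z : ↥(LinearMap.ker g)) :
    sigT x f g (Submodule.Quotient.mk z) = piT x f g ⟨((z : B), 0), by
      rw [mem_TT]
      have : g (z : B) = 0 := z.2
      simp [this]⟩ := rfl

theorem sigT_inj (x : S) {f : A →ₗ[S] B} {g : B →ₗ[S] C} (hfg : ∀ a, g (f a) = 0)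
    (hC : ∀ c : C, x • c = 0 → c = 0) (kB : ∀ b, g b = 0 → ∃ a, f a = x • b) :
    Function.Injective (sigT x f g) := by
  rw [injective_iff_map_eq_zero]
  intro z hz
  obtain ⟨z, rfl⟩ := Submodule.Quotient.mk_surjective _ z
  rw [sigT_mk, piT_eq_zero] at hz
  obtain ⟨a, b', h⟩ := hz
  have h' : (z : B) = f a + x • b' := h
  have h1 : g b' = 0 := by
    apply hC
    rw [← map_smul]
    have : x • b' = z - f a := by rw [h']; abel
    rw [this, map_sub, hfg, sub_zero]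
    exact z.2
  obtain ⟨a', ha'⟩ := kB b' h1
  rw [hm_mk_eq_zero]
  exact ⟨a + a', by rw [map_add, ha', h']⟩

/-- the connecting map -/
noncomputable def betT (x : S) (f : A →ₗ[S] B) (g : B →ₗ[S] C) (h : C →ₗ[S] D)
    (hfg : ∀ a, g (f a) = 0) (hgh : ∀ b, h (g b) = 0) (hC : ∀ c : C, x • c = 0 → c = 0)
    (hD : ∀ z : D, x • z = 0 → z = 0) :
    Hm (QuotSMulTop.map x f) (QuotSMulTop.map x g) →ₗ[S] Hm g h :=
  ((LinearMap.ker (piT x f g)).liftQ (rhoT x g h hgh hD) (by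
    intro p hp
    rw [LinearMap.mem_ker, piT_eq_zero] at hp
    obtain ⟨a, b', h1⟩ := hp
    rw [LinearMap.mem_ker, rhoT_eq_zero]
    refine ⟨b', ?_⟩
    rw [← sub_eq_zero]
    apply hC
    rw [smul_sub, ← mem_TT.1 p.2, h1, map_add, hfg, zero_add, map_smul, sub_self])) ∘ₗ
  ((piT x f g).quotKerEquivOfSurjective (piT_surj x f g)).symm.toLinearMap

theorem betT_piT (x : S) (f : A →ₗ[S] B) (g : B →ₗ[S] C) (h : C →ₗ[S] D)
    (hfg : ∀ a, g (f a) = 0) (hgh : ∀ b, h (g b) = 0) (hC : ∀ c : C, x • c = 0 → c = 0)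
    (hD : ∀ z : D, x • z = 0 → z = 0) (p : ↥(TT x g)) :
    betT x f g h hfg hgh hC hD (piT x f g p) = rhoT x g h hgh hD p := by
  rw [betT, LinearMap.comp_apply]
  have : ((piT x f g).quotKerEquivOfSurjective (piT_surj x f g)).symm (piT x f g p)
      = Submodule.Quotient.mk p := by
    rw [LinearEquiv.symm_apply_eq]
    rfl
  change Submodule.liftQ _ _ _ (((piT x f g).quotKerEquivOfSurjective
    (piT_surj x f g)).symm (piT x f g p)) = _
  rw [this]
  rfl

theorem betT_surj (x : S) (f : A →ₗ[S] B) (g : B →ₗ[S] C) (h : C →ₗ[S] D)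
    (hfg : ∀ a, g (f a) = 0) (hgh : ∀ b, h (g b) = 0) (hC : ∀ c : C, x • c = 0 → c = 0)
    (hD : ∀ z : D, x • z = 0 → z = 0) (kC : ∀ c, h c = 0 → ∃ b, g b = x • c) :
    Function.Surjective (betT x f g h hfg hgh hC hD) := by
  intro z
  obtain ⟨p, rfl⟩ := rhoT_surj x g h hgh hD kC z
  exact ⟨piT x f g p, betT_piT x f g h hfg hgh hC hD p⟩

theorem betT_ker (x : S) (f : A →ₗ[S] B) (g : B →ₗ[S] C) (h : C →ₗ[S] D)
    (hfg : ∀ a, g (f a) = 0) (hgh : ∀ b, h (g b) = 0) (hC : ∀ c : C, x • c = 0 → c = 0)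
    (hD : ∀ z : D, x • z = 0 → z = 0) :
    LinearMap.ker (betT x f g h hfg hgh hC hD) = LinearMap.range (sigT x f g) := by
  ext z
  rw [LinearMap.mem_ker, LinearMap.mem_range]
  constructor
  · intro hz
    obtain ⟨p, rfl⟩ := piT_surj x f g z
    rw [betT_piT, rhoT_eq_zero] at hz
    obtain ⟨b', hb'⟩ := hz
    have h0 : g ((p : B × C).1 - x • b') = 0 := by
      rw [map_sub, map_smul, hb', mem_TT.1 p.2, sub_self]
    refine ⟨Submodule.Quotient.mk ⟨(p : B × C).1 - x • b', h0⟩, ?_⟩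
    rw [sigT_mk, ← sub_eq_zero, ← map_sub, piT_eq_zero]
    refine ⟨0, -b', ?_⟩
    simp
  · rintro ⟨y, rfl⟩
    obtain ⟨y, rfl⟩ := Submodule.Quotient.mk_surjective _ y
    rw [sigT_mk, betT_piT, rhoT_eq_zero]
    exact ⟨0, by simp⟩

end

section Fin

variable (k : Type u) [Field k] {S : Type w} [CommRing S] [Algebra k S]
variable {A B C D : Type v} [AddCommGroup A] [Module S A] [AddCommGroup B] [Module S B]
  [AddCommGroup C] [Module S C] [AddCommGroup D] [Module S D]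
  [Module k B] [IsScalarTower k S B] [Module k C] [IsScalarTower k S C]

theorem step (x : S) (f : A →ₗ[S] B) (g : B →ₗ[S] C) (h : C →ₗ[S] D)
    (hfg : ∀ a, g (f a) = 0) (hgh : ∀ b, h (g b) = 0) (hC : ∀ c : C, x • c = 0 → c = 0)
    (hD : ∀ z : D, x • z = 0 → z = 0) (kB : ∀ b, g b = 0 → ∃ a, f a = x • b)
    (kC : ∀ c, h c = 0 → ∃ b, g b = x • c)
    [Module.Finite k (Hm f g)] [Module.Finite k (Hm g h)] :
    Module.Finite k (Hm (QuotSMulTop.map x f) (QuotSMulTop.map x g)) ∧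
    Module.finrank k (Hm (QuotSMulTop.map x f) (QuotSMulTop.map x g))
      = Module.finrank k (Hm f g) + Module.finrank k (Hm g h) := by
  set β : Hm (QuotSMulTop.map x f) (QuotSMulTop.map x g) →ₗ[k] Hm g h :=
    (betT x f g h hfg hgh hC hD).restrictScalars k with hβ
  set σ : Hm f g →ₗ[k] Hm (QuotSMulTop.map x f) (QuotSMulTop.map x g) :=
    (sigT x f g).restrictScalars k with hσ
  have hker : LinearMap.ker β = LinearMap.range σ := by
    ext z
    have := betT_ker x f g h hfg hgh hC hD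
    have h1 : z ∈ LinearMap.ker (betT x f g h hfg hgh hC hD) ↔ z ∈ LinearMap.range (sigT x f g) := by
      rw [this]
    exact h1
  have hσi : Function.Injective σ := sigT_inj x hfg hC kB
  have hβs : Function.Surjective β := betT_surj x f g h hfg hgh hC hD kC
  have hfinker : Module.Finite k (LinearMap.ker β) := by
    rw [hker]
    infer_instance
  have hfin : Module.Finite k (Hm (QuotSMulTop.map x f) (QuotSMulTop.map x g)) := by
    have : Module.Finite k (Hm (QuotSMulTop.map x f) (QuotSMulTop.map x g) ⧸ LinearMap.ker β) :=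
      Module.Finite.equiv (β.quotKerEquivOfSurjective hβs).symm
    exact Module.Finite.of_submodule_quotient (LinearMap.ker β)
  refine ⟨hfin, ?_⟩
  rw [← LinearMap.finrank_range_add_finrank_ker β, hker, LinearMap.finrank_range_of_inj hσi,
    LinearMap.range_eq_top.2 hβs, finrank_top, add_comm]

end Fin

/-- the exponents add up -/
theorem step_kill {S : Type w} [CommRing S] {A B C D : Type v} [AddCommGroup A] [Module S A]
    [AddCommGroup B] [Module S B] [AddCommGroup C] [Module S C] [AddCommGroup D] [Module S D]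
    (x y y' : S) (f : A →ₗ[S] B) (g : B →ₗ[S] C) (h : C →ₗ[S] D)
    (hgh : ∀ b, h (g b) = 0)
    (hD : ∀ z : D, x • z = 0 → z = 0) (kB : ∀ b, g b = 0 → ∃ a, f a = y • b)
    (kC : ∀ c, h c = 0 → ∃ b, g b = y' • c) (z : QuotSMulTop x B)
    (hz : QuotSMulTop.map x g z = 0) : ∃ a, QuotSMulTop.map x f a = (y * y') • z := by
  obtain ⟨b, rfl⟩ := Submodule.Quotient.mk_surjective _ z
  rw [qmap_mk, qmk_eq_zero] at hz
  obtain ⟨c, hc⟩ := hz
  have h0 : h c = 0 := by
    apply hD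
    rw [← map_smul, hc, hgh]
  obtain ⟨b', hb'⟩ := kC c h0
  obtain ⟨a, ha⟩ := kB (y' • b - x • b') (by
    rw [map_sub, map_smul, map_smul, hb', ← hc, smul_comm, sub_self])
  refine ⟨Submodule.Quotient.mk a, ?_⟩
  rw [qmap_mk, ha, ← Submodule.Quotient.mk_smul, ← sub_eq_zero, ← Submodule.Quotient.mk_sub,
    qmk_eq_zero]
  refine ⟨-(y • b'), ?_⟩
  rw [smul_sub, mul_smul, smul_neg, smul_comm x y b']
  abel

end Pool.Agent.HD5
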